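import Pool.Agent.Q60.D3.Stm2

/-!
# Project D3, job GR: Goursat–Ribet for simple quotients of a Lie algebra
-/

set_option autoImplicit false

namespace Pool.Agent.Q75.D3

open Pool.Agent.Q60.D3

section

variable {M : Type} [AddCommGroup M] [Module ℂ M] {br : M → M → M} {Q : Type}
    {W : Q → Type} [∀ q, AddCommGroup (W q)] [∀ q, Module ℂ (W q)]
    {P : ∀ q, M →ₗ[ℂ] Module.End ℂ (W q)}

/-- common kernel -/
def Ker (P : ∀ q, M →ₗ[ℂ] Module.End ℂ (W q)) (F : Set Q) : Submodule ℂ M :=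
  ⨅ q ∈ F, LinearMap.ker (P q)

theorem mem_Ker {F : Set Q} {X : M} : X ∈ Ker P F ↔ ∀ q ∈ F, P q X = 0 := by
  unfold Ker
  simp only [Submodule.mem_iInf, LinearMap.mem_ker]

theorem br_left (h1 : ∀ q X Y, P q (br X Y) = P q X * P q Y - P q Y * P q X) {F : Set Q} {X : M}
    (hX : X ∈ Ker P F) (Y : M) : br X Y ∈ Ker P F := by
  rw [mem_Ker] at hX ⊢
  intro q hq
  rw [h1, hX q hq]
  simp

theorem br_right (h1 : ∀ q X Y, P q (br X Y) = P q X * P q Y - P q Y * P q X) {F : Set Q} (X : M)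
    {Y : M} (hY : Y ∈ Ker P F) : br X Y ∈ Ker P F := by
  rw [mem_Ker] at hY ⊢
  intro q hq
  rw [h1, hY q hq]
  simp

/-- a submodule of `M` stable under all brackets has zero or full image in a simple quotient -/
theorem full (h1 : ∀ q X Y, P q (br X Y) = P q X * P q Y - P q Y * P q X)
    (h2 : ∀ q, ∀ I : Submodule ℂ (Module.End ℂ (W q)), (∀ X, ∀ A ∈ I, P q X * A - A * P q X ∈ I) →
      (∀ A ∈ I, ∃ X, P q X = A) → I ≠ ⊥ → ∀ X, P q X ∈ I)
    (q : Q) (K : Submodule ℂ M) (hK : ∀ X, ∀ Y ∈ K, br X Y ∈ K) (hne : ∃ Y ∈ K, P q Y ≠ 0)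
    (X : M) : ∃ Y ∈ K, P q Y = P q X := by
  have h := h2 q (K.map (P q)) (by
    rintro X _ ⟨Y, hY, rfl⟩
    exact ⟨br X Y, hK X Y hY, h1 q X Y⟩) (by
    rintro _ ⟨Y, -, rfl⟩
    exact ⟨Y, rfl⟩) (by
    obtain ⟨Y, hY, hne⟩ := hne
    intro hbot
    have : P q Y ∈ K.map (P q) := ⟨Y, hY, rfl⟩
    rw [hbot, Submodule.mem_bot] at this
    exact hne this) X
  obtain ⟨Y, hY, e⟩ := h
  exact ⟨Y, hY, e⟩

end

theorem gr : S_gr := by
  intro M _ _ br Q _ W _ _ P h1 h2 h3 h4 q X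
  classical
  haveI := Fintype.ofFinite Q
  have claim : ∀ F : Finset Q, q ∉ F → ∀ X, ∃ Y ∈ Ker P (F : Set Q), P q Y = P q X := by
    intro F
    induction F using Finset.induction_on with
    | empty =>
      intro _ X
      exact ⟨X, by rw [mem_Ker]; simp, rfl⟩
    | insert q' F hq' ih =>
      intro hq X
      rw [Finset.mem_insert, not_or] at hq
      refine full h1 h2 q (Ker P ((insert q' F : Finset Q) : Set Q))
        (fun X Y hY => br_right h1 X hY) ?_ X
      obtain ⟨A, B, hAB⟩ := h3 q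
      obtain ⟨A', hA', eA⟩ := ih hq.2 A
      obtain ⟨B', hB', eB⟩ := full h1 h2 q (Ker P ({q'} : Set Q))
        (fun X Y hY => br_right h1 X hY) (by
          obtain ⟨Y, hY, hne⟩ := h4 q q' hq.1
          exact ⟨Y, by rw [mem_Ker]; intro r hr; rw [Set.mem_singleton_iff] at hr; rw [hr, hY],
            hne⟩) B
      refine ⟨br A' B', ?_, ?_⟩
      · rw [mem_Ker]
        intro r hr
        rw [Finset.coe_insert, Set.mem_insert_iff] at hr
        rcases hr with rfl | hr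
        · exact mem_Ker.1 (br_right h1 A' hB') r rfl
        · exact mem_Ker.1 (br_left h1 hA' B') r hr
      · rw [h1, eA, eB, ← h1]
        exact hAB
  have hall := claim (Finset.univ.erase q) (Finset.notMem_erase q _)
  set K : Submodule ℂ M := Ker P ((Finset.univ.erase q : Finset Q) : Set Q) with hK
  -- the span of the brackets of elements of `K`, together with the kernel of `P q`
  have hb : ∃ Y ∈ (Submodule.span ℂ {A | ∃ B ∈ K, ∃ C ∈ K, A = br B C}).map (P q), Y ≠ 0 := by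
    obtain ⟨A, B, hAB⟩ := h3 q
    obtain ⟨A', hA', eA⟩ := hall A
    obtain ⟨B', hB', eB⟩ := hall B
    refine ⟨P q (br A' B'), ⟨br A' B', Submodule.subset_span ⟨A', hA', B', hB', rfl⟩, rfl⟩, ?_⟩
    rw [h1, eA, eB, ← h1]
    exact hAB
  have hid := h2 q ((Submodule.span ℂ {A | ∃ B ∈ K, ∃ C ∈ K, A = br B C}).map (P q)) (by
    rintro X _ ⟨Y, hY, rfl⟩
    refine Submodule.span_induction (p := fun Y _ => P q X * P q Y - P q Y * P q X ∈
      (Submodule.span ℂ {A | ∃ B ∈ K, ∃ C ∈ K, A = br B C}).map (P q)) ?_ ?_ ?_ ?_ hY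
    · rintro _ ⟨B, hB, C, hC, rfl⟩
      refine ⟨br (br X B) C + br B (br X C), Submodule.add_mem _
        (Submodule.subset_span ⟨br X B, br_right h1 X hB, C, hC, rfl⟩)
        (Submodule.subset_span ⟨B, hB, br X C, br_right h1 X hC, rfl⟩), ?_⟩
      rw [map_add, h1, h1, h1, h1, h1]
      noncomm_ring
    · simp
    · intro Y Z _ _ hY hZ
      have := Submodule.add_mem _ hY hZ
      refine (congrArg (· ∈ (Submodule.span ℂ {A | ∃ B ∈ K, ∃ C ∈ K, A = br B C}).map (P q)) ?_).mpr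
        this
      rw [map_add]
      noncomm_ring
    · intro a Y _ hY
      have := Submodule.smul_mem _ a hY
      refine (congrArg (· ∈ (Submodule.span ℂ {A | ∃ B ∈ K, ∃ C ∈ K, A = br B C}).map (P q)) ?_).mpr
        this
      rw [map_smul, smul_sub, mul_smul_comm, smul_mul_assoc]) (by
    rintro _ ⟨Y, -, rfl⟩
    exact ⟨Y, rfl⟩) (by
    obtain ⟨Y, hY, hne⟩ := hb
    intro hbot
    rw [hbot, Submodule.mem_bot] at hY
    exact hne hY) X
  obtain ⟨Y, hY, e⟩ := hid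
  refine ⟨Y, ?_, e, ?_⟩
  · exact Submodule.span_mono (by rintro _ ⟨B, -, C, -, rfl⟩; exact ⟨B, C, rfl⟩) hY
  · intro q' hq'
    have h5 : Submodule.span ℂ {A | ∃ B ∈ K, ∃ C ∈ K, A = br B C} ≤ K := by
      rw [Submodule.span_le]
      rintro _ ⟨B, hB, C, -, rfl⟩
      exact br_left h1 hB C
    exact mem_Ker.1 (h5 hY) q' (by simpa using hq')

end Pool.Agent.Q75.D3
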