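import Pool.Agent.Q60.D3.Stm2

/-!
# Project D3, job GRS: application of Goursat–Ribet to a mixed system
-/

set_option autoImplicit false

namespace Pool.Agent.Q75.D3

open Matrix Module Pool.Agent.Q60.D3 Pool.Agent.W437.HP

/-- the traceless part as a linear map -/
noncomputable def tlL : Matrix (Fin 3) (Fin 3) ℂ →ₗ[ℂ] Matrix (Fin 3) (Fin 3) ℂ where
  toFun := tl
  map_add' A B := by
    unfold tl
    rw [Matrix.trace_add, add_div, add_smul]
    abel
  map_smul' a A := by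
    unfold tl
    rw [Matrix.trace_smul, smul_eq_mul, mul_div_assoc, RingHom.id_apply, smul_sub, smul_smul]

theorem tlL_apply (A : Matrix (Fin 3) (Fin 3) ℂ) : tlL A = tl A := rfl

theorem tl_of_trace {A : Matrix (Fin 3) (Fin 3) ℂ} (h : A.trace = 0) : tl A = A := by
  unfold tl
  rw [h, zero_div, zero_smul, sub_zero]

theorem tl_trace (A : Matrix (Fin 3) (Fin 3) ℂ) : (tl A).trace = 0 := by
  unfold tl
  rw [Matrix.trace_sub, Matrix.trace_smul, Matrix.trace_one, Fintype.card_fin, smul_eq_mul]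
  push_cast
  ring

theorem tl_brk (A B : Matrix (Fin 3) (Fin 3) ℂ) :
    tl (A * B - B * A) = tl A * tl B - tl B * tl A := by
  have h : (A * B - B * A).trace = 0 := by
    rw [Matrix.trace_sub, Matrix.trace_mul_comm, sub_self]
  rw [tl_of_trace h]
  unfold tl
  simp only [sub_mul, mul_sub, smul_mul_assoc, mul_smul_comm, one_mul, mul_one, smul_sub]
  rw [smul_comm (A.trace / 3) (B.trace / 3)]
  abel

theorem tl_single {i j : Fin 3} (h : i ≠ j) :
    tl (Matrix.single i j (1 : ℂ)) = Matrix.single i j 1 := by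
  apply tl_of_trace
  exact Matrix.trace_single_eq_of_ne i j 1 h

/-- a representation of a Lie algebra -/
structure Rep (M : Type) [AddCommGroup M] [Module ℂ M] where
  V : Type
  [i1 : AddCommGroup V]
  [i2 : Module ℂ V]
  P : M →ₗ[ℂ] Module.End ℂ V

attribute [instance] Rep.i1 Rep.i2

section

variable {M : Type} [AddCommGroup M] [Module ℂ M] {br : M → M → M} {𝒮 𝒦 𝒞 : Type}
    {N : 𝒮 → Type} [∀ a, AddCommGroup (N a)] [∀ a, Module ℂ (N a)]

theorem LnkK.refl (S : Sys3 M br 𝒦 𝒞 N) (k : 𝒦) : LnkK S k k :=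
  ⟨1, by simp, fun X => by simp⟩

theorem LnkK.symm (S : Sys3 M br 𝒦 𝒞 N) {k k' : 𝒦} (h : LnkK S k k') : LnkK S k' k := by
  obtain ⟨τ, h1, h2⟩ := h
  refine ⟨τ⁻¹, ?_, fun X => ?_⟩
  · rw [Matrix.det_nonsing_inv]
    exact h1.ringInverse
  · have e := h2 X
    have h3 : τ⁻¹ * (tl (S.T k X) * τ) * τ⁻¹ = τ⁻¹ * (τ * tl (S.T k' X)) * τ⁻¹ := by rw [e]
    rw [← Matrix.mul_assoc τ⁻¹ τ, Matrix.nonsing_inv_mul _ h1, Matrix.one_mul, ← Matrix.mul_assoc,
      Matrix.mul_assoc _ τ, Matrix.mul_nonsing_inv _ h1, Matrix.mul_one] at h3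
    exact h3.symm

theorem LnkK.trans (S : Sys3 M br 𝒦 𝒞 N) {k k' k'' : 𝒦} (h : LnkK S k k') (h' : LnkK S k' k'') :
    LnkK S k k'' := by
  obtain ⟨τ, h1, h2⟩ := h
  obtain ⟨τ', h1', h2'⟩ := h'
  refine ⟨τ * τ', ?_, fun X => ?_⟩
  · rw [Matrix.det_mul]
    exact h1.mul h1'
  · rw [← Matrix.mul_assoc, h2, Matrix.mul_assoc, h2', Matrix.mul_assoc]

/-- the classes of pieces of dimension three -/
def kset (S : Sys3 M br 𝒦 𝒞 N) : Setoid 𝒦 := ⟨LnkK S, ⟨LnkK.refl S, LnkK.symm S, LnkK.trans S⟩⟩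

variable (S : Sys3 M br 𝒦 𝒞 N)

/-- the representation of a symplectic piece -/
noncomputable def repS (a : 𝒮) : Rep M := ⟨N a, S.s.ρ a⟩

/-- the representation of a piece of dimension three -/
noncomputable def repK (k : 𝒦) : Rep M :=
  ⟨Fin 3 → ℂ, (Matrix.toLin' (R := ℂ) (m := Fin 3) (n := Fin 3)).toLinearMap.comp
    (tlL.comp (S.T k))⟩

theorem repK_apply (k : 𝒦) (X : M) : (repK S k).P X = Matrix.toLin' (tl (S.T k X)) := rfl

theorem repK_brk (k : 𝒦) (X Y : M) : (repK S k).P (br X Y) =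
    (repK S k).P X * (repK S k).P Y - (repK S k).P Y * (repK S k).P X := by
  rw [repK_apply, repK_apply, repK_apply, S.Tbr, tl_brk, map_sub, Matrix.toLin'_mul,
    Matrix.toLin'_mul]
  rfl

/-- all traceless matrices are images -/
theorem sl_sub (g2 : S_sli) (I : Submodule ℂ (Matrix (Fin 3) (Fin 3) ℂ))
    (hI : ∀ A ∈ I, A.trace = 0) (k : 𝒦)
    (hs : ∀ X, ∀ A ∈ I, tl (S.T k X) * A - A * tl (S.T k X) ∈ I) (hne : I ≠ ⊥)
    (A : Matrix (Fin 3) (Fin 3) ℂ) (hA : A.trace = 0) : A ∈ I := by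
  refine g2 I hI (fun i j hij A hA => ?_) hne A hA
  obtain ⟨X, hX⟩ := S.Tfull k i j hij
  have h := hs X A hA
  rw [hX, tl_single hij] at h
  exact h

theorem T_onto (g2 : S_sli) (k : 𝒦) (A : Matrix (Fin 3) (Fin 3) ℂ) (hA : A.trace = 0) :
    ∃ X, tl (S.T k X) = A := by
  have h := sl_sub S g2 (LinearMap.range (tlL.comp (S.T k))) (by
    rintro _ ⟨X, rfl⟩
    exact tl_trace _) k (by
    rintro X _ ⟨Y, rfl⟩
    refine ⟨br X Y, ?_⟩
    change tl (S.T k (br X Y)) = _
    rw [S.Tbr, tl_brk]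
    rfl) (by
    intro hbot
    obtain ⟨X, hX⟩ := S.Tfull k 0 1 (by decide)
    have h1 : tlL.comp (S.T k) X ∈ LinearMap.range (tlL.comp (S.T k)) := ⟨X, rfl⟩
    rw [hbot, Submodule.mem_bot] at h1
    change tl (S.T k X) = 0 at h1
    rw [hX, tl_single (by decide)] at h1
    have h2 := congrFun (congrFun h1 0) 1
    simp [Matrix.single] at h2) A hA
  obtain ⟨X, hX⟩ := h
  exact ⟨X, hX⟩

variable [∀ a, FiniteDimensional ℂ (N a)] [∀ a, Nontrivial (N a)]

theorem key (g1 : S_gr) (g2 : S_sli) (g3 : S_link) (g4 : S_nol) (QS QK : Type) [Finite QS]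
    [Finite QK] (rS : QS → 𝒮) (rK : QK → 𝒦) (hS : ∀ q q', q ≠ q' → ¬ Lnk S.s (rS q) (rS q'))
    (hK : ∀ q q', q ≠ q' → ¬ LnkK S (rK q) (rK q')) :
    (∀ q X, ∃ Y ∈ Submodule.span ℂ {A | ∃ B C, A = br B C}, S.s.ρ (rS q) Y = S.s.ρ (rS q) X ∧
      (∀ q', q' ≠ q → S.s.ρ (rS q') Y = 0) ∧ ∀ k, tl (S.T (rK k) Y) = 0) ∧
    ∀ k X, ∃ Y ∈ Submodule.span ℂ {A | ∃ B C, A = br B C}, tl (S.T (rK k) Y) = tl (S.T (rK k) X) ∧
      (∀ k', k' ≠ k → tl (S.T (rK k') Y) = 0) ∧ ∀ q, S.s.ρ (rS q) Y = 0 := by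
  classical
  obtain ⟨fam, hfam⟩ : ∃ fam : QS ⊕ QK → Rep M, fam = Sum.elim (fun q => repS S (rS q))
    (fun k => repK S (rK k)) := ⟨_, rfl⟩
  have toLin0 : ∀ A : Matrix (Fin 3) (Fin 3) ℂ, Matrix.toLin' A = 0 → A = 0 := fun A hA =>
    (Matrix.toLin' (R := ℂ) (m := Fin 3) (n := Fin 3)).map_eq_zero_iff.1 hA
  have H := g1 M br (QS ⊕ QK) (fun q => (fam q).V) (fun q => (fam q).P) ?_ ?_ ?_ ?_
  · subst hfam
    constructor
    · intro q X
      obtain ⟨Y, hY, h1, h2⟩ := H (Sum.inl q) X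
      refine ⟨Y, hY, h1, fun q' hq' => h2 (Sum.inl q') (fun h => hq' (Sum.inl.inj h)), fun k => ?_⟩
      exact toLin0 _ (h2 (Sum.inr k) (by simp))
    · intro k X
      obtain ⟨Y, hY, h1, h2⟩ := H (Sum.inr k) X
      refine ⟨Y, hY, ?_, fun k' hk' => ?_, fun q => h2 (Sum.inl q) (by simp)⟩
      · have h3 : Matrix.toLin' (tl (S.T (rK k) Y)) = Matrix.toLin' (tl (S.T (rK k) X)) := h1
        exact (Matrix.toLin' (R := ℂ) (m := Fin 3) (n := Fin 3)).injective h3
      · exact toLin0 _ (h2 (Sum.inr k') (fun h => hk' (Sum.inr.inj h)))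
  · subst hfam
    rintro (q | k) X Y
    · exact S.s.brk (rS q) X Y
    · exact repK_brk S (rK k) X Y
  · subst hfam
    rintro (q | k)
    · intro I hI hr hne X
      change Submodule ℂ (Module.End ℂ (N (rS q))) at I
      obtain ⟨A, hA, hA0⟩ := (Submodule.ne_bot_iff _).1 hne
      obtain ⟨Z, hZ⟩ := hr A hA
      have hsp : IsSp (S.s.w (rS q)) A := by
        rw [← hZ]
        exact S.s.sp (rS q) Z
      have h1 : ∀ x y, EE (S.s.w (rS q)) x y ∈ I := ideal_full (S.s.alt (rS q)) (S.s.nd (rS q))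
        (S.s.brk (rS q)) (S.s.sp (rS q)) (S.s.full (rS q)) I hI hA hsp hA0
      have h2 := mem_span_EE (S.s.alt (rS q)) (S.s.nd (rS q)) (S.s.sp (rS q) X)
      have h3 : Submodule.span ℂ {E | ∃ x y, E = EE (S.s.w (rS q)) x y} ≤ I := by
        rw [Submodule.span_le]
        rintro _ ⟨x, y, rfl⟩
        exact h1 x y
      exact h3 h2
    · intro I hI hr hne X
      change Submodule ℂ (Module.End ℂ (Fin 3 → ℂ)) at I
      have h1 := sl_sub S g2 (I.comap (Matrix.toLin' (R := ℂ) (m := Fin 3) (n := Fin 3)).toLinearMap)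
        (by
          intro A hA
          obtain ⟨Z, hZ⟩ := hr _ hA
          have h2 : Matrix.toLin' (tl (S.T (rK k) Z)) = Matrix.toLin' A := hZ
          rw [← (Matrix.toLin' (R := ℂ) (m := Fin 3) (n := Fin 3)).injective h2]
          exact tl_trace _) (rK k) (by
          intro Z A hA
          have h2 := hI Z _ hA
          rw [Submodule.mem_comap]
          have h3 : Matrix.toLin' (tl (S.T (rK k) Z) * A - A * tl (S.T (rK k) Z)) =
              Matrix.toLin' (tl (S.T (rK k) Z)) * Matrix.toLin' A -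
                Matrix.toLin' A * Matrix.toLin' (tl (S.T (rK k) Z)) := by
            rw [map_sub, Matrix.toLin'_mul, Matrix.toLin'_mul]
            rfl
          change Matrix.toLin' (tl (S.T (rK k) Z) * A - A * tl (S.T (rK k) Z)) ∈ I
          rw [h3]
          exact h2) (by
          intro hbot
          obtain ⟨A, hA, hA0⟩ := (Submodule.ne_bot_iff _).1 hne
          have h2 : LinearMap.toMatrix' A ∈
              I.comap (Matrix.toLin' (R := ℂ) (m := Fin 3) (n := Fin 3)).toLinearMap := by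
            rw [Submodule.mem_comap]
            change Matrix.toLin' (LinearMap.toMatrix' A) ∈ I
            rw [Matrix.toLin'_toMatrix']
            exact hA
          rw [hbot, Submodule.mem_bot] at h2
          apply hA0
          rw [← Matrix.toLin'_toMatrix' A, h2, map_zero]) (tl (S.T (rK k) X)) (tl_trace _)
      exact h1
  · subst hfam
    rintro (q | k)
    · obtain ⟨z, hz⟩ := exists_ne (0 : N (rS q))
      obtain ⟨z', hz'⟩ := exists_pair (S.s.nd (rS q)) hz
      obtain ⟨X1, hX1⟩ := S.s.full (rS q) z z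
      obtain ⟨X2, hX2⟩ := S.s.full (rS q) z' z'
      refine ⟨X1, X2, ?_⟩
      change S.s.ρ (rS q) (br X1 X2) ≠ 0
      have h3 : S.s.ρ (rS q) (br X1 X2) = (4 : ℂ) • EE (S.s.w (rS q)) z z' := by
        rw [S.s.brk, hX2, EE_bracket (S.s.sp (rS q) X1), hX1, EE_self, hz', mul_one, EE_smul_left,
          EE_smul_right, EE_comm (S.s.w (rS q)) z' z, ← add_smul]
        norm_num
      rw [h3]
      intro h4
      have h5 := (smul_eq_zero.1 h4).resolve_left (by norm_num)
      have h6 : z' ≠ 0 := by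
        rintro rfl
        rw [map_zero] at hz'
        exact zero_ne_one hz'
      exact hz (EE_eq_zero (S.s.alt (rS q)) (S.s.nd (rS q)) h6 h5)
    · obtain ⟨X1, hX1⟩ := S.Tfull (rK k) 0 1 (by decide)
      obtain ⟨X2, hX2⟩ := S.Tfull (rK k) 1 0 (by decide)
      refine ⟨X1, X2, ?_⟩
      change Matrix.toLin' (tl (S.T (rK k) (br X1 X2))) ≠ 0
      intro h4
      have h5 := toLin0 _ h4
      rw [S.Tbr, hX1, hX2, tl_brk, tl_single (by decide), tl_single (by decide)] at h5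
      have h6 := congrFun (congrFun h5 0) 0
      simp at h6
  · subst hfam
    rintro (q | k) (q' | k') hne
    · have hne' : q ≠ q' := fun h => hne (by rw [h])
      obtain ⟨z, hz⟩ := exists_ne (0 : N (rS q))
      obtain ⟨X, h1, h2⟩ := dichotomy S.s (hS q q' hne') z z
      refine ⟨X, h2, ?_⟩
      change S.s.ρ (rS q) X ≠ 0
      rw [h1]
      exact fun h => hz (EE_eq_zero (S.s.alt (rS q)) (S.s.nd (rS q)) hz h)
    · obtain ⟨-, X, h1, h2⟩ := g4 M br (N (rS q)) (S.s.w (rS q)) (S.s.ρ (rS q)) (S.T (rK k'))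
        (S.s.alt (rS q)) (S.s.nd (rS q)) (S.s.brk (rS q)) (S.s.sp (rS q)) (S.s.full (rS q))
        (S.Tbr (rK k')) (S.Tfull (rK k')) S.δ (S.δT (rK k')) (S.δρ (rS q))
      refine ⟨X, ?_, h2⟩
      change Matrix.toLin' (tl (S.T (rK k') X)) = 0
      rw [h1, map_zero]
    · obtain ⟨⟨X, h1, h2⟩, -⟩ := g4 M br (N (rS q')) (S.s.w (rS q')) (S.s.ρ (rS q')) (S.T (rK k))
        (S.s.alt (rS q')) (S.s.nd (rS q')) (S.s.brk (rS q')) (S.s.sp (rS q')) (S.s.full (rS q'))
        (S.Tbr (rK k)) (S.Tfull (rK k)) S.δ (S.δT (rK k)) (S.δρ (rS q'))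
      exact ⟨X, h1, fun h => h2 (toLin0 _ h)⟩
    · have hne' : k ≠ k' := fun h => hne (by rw [h])
      by_contra hcon
      push Not at hcon
      apply hK k k' hne'
      obtain ⟨τ, h1, h2⟩ := g3 M br (S.T (rK k)) (S.T (rK k')) (S.Tbr (rK k)) (S.Tbr (rK k'))
        (S.Tfull (rK k)) (S.Tfull (rK k')) S.δ (S.δT (rK k)) (S.δT (rK k')) (by
          intro X hX
          have h3 := hcon X (by
            change Matrix.toLin' (tl (S.T (rK k') X)) = 0
            rw [hX, map_zero])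
          exact toLin0 _ h3)
      exact ⟨τ, h1, h2⟩

/-- on the span of the brackets the traces and the characters vanish -/
theorem span_zero {Y : M} (hY : Y ∈ Submodule.span ℂ {A | ∃ B C, A = br B C}) :
    (∀ k, (S.T k Y).trace = 0) ∧ ∀ c, S.χ c Y = 0 := by
  constructor
  · intro k
    refine Submodule.span_induction (p := fun Y _ => (S.T k Y).trace = 0) ?_ ?_ ?_ ?_ hY
    · rintro _ ⟨B, C, rfl⟩
      rw [S.Tbr, Matrix.trace_sub, Matrix.trace_mul_comm, sub_self]
    · rw [map_zero, Matrix.trace_zero]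
    · intro A B _ _ hA hB
      rw [map_add, Matrix.trace_add, hA, hB, add_zero]
    · intro a A _ hA
      rw [map_smul, Matrix.trace_smul, hA, smul_zero]
  · intro c
    refine Submodule.span_induction (p := fun Y _ => S.χ c Y = 0) ?_ ?_ ?_ ?_ hY
    · rintro _ ⟨B, C, rfl⟩
      exact S.χbr c B C
    · rw [map_zero]
    · intro A B _ _ hA hB
      rw [map_add, hA, hB, add_zero]
    · intro a A _ hA
      rw [map_smul, hA, smul_zero]

end

theorem grs (g1 : S_gr) (g2 : S_sli) (g3 : S_link) (g4 : S_nol) : S_grs := by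
  intro M _ _ br 𝒮 𝒦 𝒞 _ _ N _ _ _ _ S
  classical
  have hrS : ∀ a, Lnk S.s (Quotient.out (Quotient.mk (lset S.s) a)) a := fun a =>
    @Quotient.exact _ (lset S.s) _ a (Quotient.out_eq _)
  have hrK : ∀ k, LnkK S (Quotient.out (Quotient.mk (kset S) k)) k := fun k =>
    @Quotient.exact _ (kset S) _ k (Quotient.out_eq _)
  have hS : ∀ q q' : Quotient (lset S.s), q ≠ q' → ¬ Lnk S.s q.out q'.out := by
    intro q q' hne h
    apply hne
    rw [← Quotient.out_eq q, ← Quotient.out_eq q']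
    exact Quotient.sound h
  have hK : ∀ q q' : Quotient (kset S), q ≠ q' → ¬ LnkK S q.out q'.out := by
    intro q q' hne h
    apply hne
    rw [← Quotient.out_eq q, ← Quotient.out_eq q']
    exact Quotient.sound h
  obtain ⟨HS, HK⟩ := key S g1 g2 g3 g4 (Quotient (lset S.s)) (Quotient (kset S))
    Quotient.out Quotient.out hS hK
  -- vanishing on the representatives gives vanishing on the classes
  have tS : ∀ (Y : M) (b : 𝒮), S.s.ρ (Quotient.out (Quotient.mk (lset S.s) b)) Y = 0 →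
      S.s.ρ b Y = 0 := by
    intro Y b hY
    obtain ⟨f, h1, -⟩ := hrS b
    ext u
    obtain ⟨u, rfl⟩ := f.surjective u
    rw [← h1, hY]
    simp
  have tK : ∀ (Y : M) (k : 𝒦), Y ∈ Submodule.span ℂ {A | ∃ B C, A = br B C} →
      tl (S.T (Quotient.out (Quotient.mk (kset S) k)) Y) = 0 → S.T k Y = 0 := by
    intro Y k hY hY0
    obtain ⟨τ, h1, h2⟩ := hrK k
    have h3 := h2 Y
    rw [hY0, Matrix.zero_mul] at h3
    have h4 : tl (S.T k Y) = 0 := by
      have : τ⁻¹ * (τ * tl (S.T k Y)) = 0 := by rw [← h3, Matrix.mul_zero]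
      rwa [← Matrix.mul_assoc, Matrix.nonsing_inv_mul _ h1, Matrix.one_mul] at this
    rwa [tl_of_trace ((span_zero S hY).1 k)] at h4
  constructor
  · intro a x y
    obtain ⟨f, hf1, hf2⟩ := Lnk.symm S.s (hrS a)
    obtain ⟨X₀, hX₀⟩ := S.s.full (Quotient.out (Quotient.mk (lset S.s) a)) (f x) (f y)
    obtain ⟨Y, hY, h1, h2, h3⟩ := HS (Quotient.mk (lset S.s) a) X₀
    rw [hX₀] at h1
    have hYa : S.s.ρ a Y = EE (S.s.w a) x y := by
      ext u
      apply f.injective
      rw [hf1, h1, EE_apply, EE_apply, map_add, map_smul, map_smul, hf2, hf2]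
    refine ⟨Y, hYa, ?_, ?_, ?_, (span_zero S hY).2⟩
    · intro b hb
      apply tS
      apply h2
      intro h
      apply hb
      exact @Quotient.exact _ (lset S.s) a b h.symm
    · intro b f' hf1' hf2'
      ext u
      obtain ⟨u, rfl⟩ := f'.surjective u
      rw [← hf1', hYa, EE_apply, EE_apply, map_add, map_smul, map_smul, hf2', hf2']
    · intro k
      exact tK Y k hY (h3 _)
  · intro k A hA
    obtain ⟨τ₀, ht1, ht2⟩ := LnkK.symm S (hrK k)
    obtain ⟨X₀, hX₀⟩ := T_onto S g2 (Quotient.out (Quotient.mk (kset S) k)) (τ₀⁻¹ * A * τ₀) (by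
      rw [Matrix.trace_mul_comm, ← Matrix.mul_assoc, Matrix.mul_nonsing_inv _ ht1, Matrix.one_mul,
        hA])
    obtain ⟨Y, hY, h1, h2, h3⟩ := HK (Quotient.mk (kset S) k) X₀
    rw [hX₀] at h1
    have hYk : tl (S.T k Y) = A := by
      have h4 := ht2 Y
      rw [h1, ← Matrix.mul_assoc, ← Matrix.mul_assoc, Matrix.mul_nonsing_inv _ ht1,
        Matrix.one_mul] at h4
      have h5 : tl (S.T k Y) * τ₀ * τ₀⁻¹ = A * τ₀ * τ₀⁻¹ := by rw [h4]
      rwa [Matrix.mul_assoc, Matrix.mul_assoc, Matrix.mul_nonsing_inv _ ht1, Matrix.mul_one,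
        Matrix.mul_one] at h5
    refine ⟨Y, ?_, ?_, fun a => tS Y a (h3 _), (span_zero S hY).2⟩
    · intro k' τ hτ h4
      have h5 := h4 Y
      rw [hYk, tl_of_trace ((span_zero S hY).1 k')] at h5
      exact h5.symm
    · intro k' hk'
      apply tK Y k' hY
      apply h2
      intro h
      apply hk'
      exact @Quotient.exact _ (kset S) k k' h.symm

end Pool.Agent.Q75.D3
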